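import Pool.Agent.Y660.CW.Fin

/-!
# Convexity of all increasing convex functions of the workloads, for arrivals which may depend on
# the whole history

The ordered workload vector `W₁ ≤ … ≤ Wₖ` of the `k`-server first come first served queue. The
service times are independent of the past; the interarrival times need not be independent or
identically distributed: the next interarrival time may depend in an arbitrary way on the present
service time, on the present workloads and on the past (which is coded in an environment with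
values in an arbitrary measurable space). In the stationary regime, for EVERY nondecreasing convex
function `G` on `[0, ∞)` the sequence `E G(W₁), …, E G(Wₖ)` is convex, no moment conditions. The
case of the question is `G(x) = x` and i.i.d. interarrival times which are independent of the
service times; the i.i.d. case needs no finite second moments and no bound for the traffic
intensity.
-/

set_option autoImplicit false

open MeasureTheory ProbabilityTheory Filter Topology
open scoped ENNReal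

namespace Pool.Agent.Results.MP_a2bed5_pr.ConvexFunctions

/-- The increasing rearrangement of a vector. -/
noncomputable def increasing {k : ℕ} (v : Fin k → ℝ) : Fin k → ℝ := v ∘ Tuple.sort v

/-- The Kiefer-Wolfowitz recursion: service time `s` goes to the least loaded server, and then the
time `t` passes. -/
noncomputable def kwStep {k : ℕ} (w : Fin k → ℝ) (s t : ℝ) : Fin k → ℝ :=
  increasing (fun i => max (w i + (if (i : ℕ) = 0 then s else 0) - t) 0)

/-- `κ (w, e)` is the joint law of the service time of a customer, the time until the next arrival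
and the next environment, given that the customer sees the ordered workloads `w` and the
environment `e`. Both times are nonnegative, and the service time always has the law `μS`, that is,
it is independent of the past. -/
structure IsQueue {k : ℕ} {E : Type} [MeasurableSpace E] (μS : Measure ℝ)
    (κ : Kernel ((Fin k → ℝ) × E) (ℝ × ℝ × E)) : Prop where
  service : ∀ q : (Fin k → ℝ) × E, (κ q).map Prod.fst = μS
  nonneg : ∀ q : (Fin k → ℝ) × E, ∀ᵐ p ∂(κ q), 0 ≤ p.1 ∧ 0 ≤ p.2.1

/-- `π` is a stationary joint law of the ordered workload vector and the environment. -/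
structure IsStationary {k : ℕ} {E : Type} [MeasurableSpace E]
    (κ : Kernel ((Fin k → ℝ) × E) (ℝ × ℝ × E)) (π : Measure ((Fin k → ℝ) × E)) : Prop where
  prob : IsProbabilityMeasure π
  ordered : ∀ᵐ q ∂π, Monotone q.1 ∧ ∀ i, 0 ≤ q.1 i
  invariant : Measure.map (fun r : ((Fin k → ℝ) × E) × (ℝ × ℝ × E) =>
    (kwStep r.1.1 r.2.1 r.2.2.1, r.2.2.2)) (π ⊗ₘ κ) = π

/-- The probability that the sum of the next `n` interarrival times is at most `y`. -/
noncomputable def early {k : ℕ} {E : Type} [MeasurableSpace E]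
    (κ : Kernel ((Fin k → ℝ) × E) (ℝ × ℝ × E)) : ℕ → (Fin k → ℝ) × E → ℝ → ℝ≥0∞
  | 0, _, y => if 0 ≤ y then 1 else 0
  | n + 1, q, y => ∫⁻ p, early κ n (kwStep q.1 p.1 p.2.1, p.2.2) (y - p.2.1) ∂(κ q)

/-- Almost surely only finitely many customers arrive in bounded time. -/
def ArrivalsDiverge {k : ℕ} {E : Type} [MeasurableSpace E]
    (κ : Kernel ((Fin k → ℝ) × E) (ℝ × ℝ × E)) (π : Measure ((Fin k → ℝ) × E)) : Prop :=
  ∀ᵐ q ∂π, ∀ y : ℝ, Tendsto (fun n => early κ n q y) atTop (𝓝 0)

/-- For every nondecreasing convex function `G` on `[0, ∞)` the sequence `E G(W₁), …, E G(Wₖ)` is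
convex: in the extended nonnegative numbers for `G - G 0`, and in the real numbers if all `G(Wᵢ)`
are integrable. -/
def AllConvex {Ω : Type} [MeasurableSpace Ω] (P : Measure Ω) {k : ℕ} (W : Ω → Fin k → ℝ) : Prop :=
  ∀ G : ℝ → ℝ, ConvexOn ℝ (Set.Ici 0) G → MonotoneOn G (Set.Ici 0) →
    (∀ (i : ℕ) (h : i + 2 < k),
      2 * ∫⁻ ω, ENNReal.ofReal (G (W ω ⟨i + 1, by omega⟩) - G 0) ∂P ≤
        ∫⁻ ω, ENNReal.ofReal (G (W ω ⟨i, by omega⟩) - G 0) ∂P +
          ∫⁻ ω, ENNReal.ofReal (G (W ω ⟨i + 2, h⟩) - G 0) ∂P) ∧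
    ((∀ i : Fin k, Integrable (fun ω => G (W ω i)) P) → ∀ (i : ℕ) (h : i + 2 < k),
      2 * ∫ ω, G (W ω ⟨i + 1, by omega⟩) ∂P ≤
        ∫ ω, G (W ω ⟨i, by omega⟩) ∂P + ∫ ω, G (W ω ⟨i + 2, h⟩) ∂P)

/-- `π` is a stationary law of the ordered workload vector when the pairs (service time,
interarrival time) are i.i.d. with law `ν`. -/
structure IsStationaryIid {k : ℕ} (ν : Measure (ℝ × ℝ)) (π : Measure (Fin k → ℝ)) : Prop where
  prob : IsProbabilityMeasure π
  ordered : ∀ᵐ w ∂π, Monotone w ∧ ∀ i, 0 ≤ w i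
  invariant : Measure.map (fun r : (Fin k → ℝ) × (ℝ × ℝ) => kwStep r.1 r.2.1 r.2.2) (π.prod ν) = π

lemma kwStep_eq {k : ℕ} : @kwStep k = @MP_a2bed5_pr.ConvexWorkloads.kwStep k := rfl

lemma early_eq {m : ℕ} {E : Type} [MeasurableSpace E]
    (κ : Kernel ((Fin (m + 1) → ℝ) × E) (ℝ × ℝ × E)) (n : ℕ) (q : (Fin (m + 1) → ℝ) × E) (y : ℝ) :
    early κ n q y = Y660.CW.early κ n (q, y) := by
  induction n generalizing q y with
  | zero => rfl
  | succ n ih =>
    simp only [early, Y660.CW.early]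
    exact lintegral_congr fun p => ih _ _

lemma emb (m : ℕ) :
    MeasurableEmbedding (fun w : Fin (m + 1) → ℝ => ((w, ()) : Y660.CW.St m Unit)) :=
  (show (Fin (m + 1) → ℝ) ≃ᵐ Y660.CW.St m Unit from
    { toEquiv := (Equiv.prodPUnit (Fin (m + 1) → ℝ)).symm
      measurable_toFun := measurable_id.prodMk measurable_const
      measurable_invFun := measurable_fst }).measurableEmbedding

lemma general (k : ℕ) (E : Type) [MeasurableSpace E] (μS : Measure ℝ) [IsProbabilityMeasure μS]
    (κ : Kernel ((Fin k → ℝ) × E) (ℝ × ℝ × E)) [IsMarkovKernel κ]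
    (π : Measure ((Fin k → ℝ) × E)) (hκ : IsQueue μS κ) (hπ : IsStationary κ π)
    (harr : ArrivalsDiverge κ π) : AllConvex π (fun q => q.1) := by
  rcases Nat.eq_zero_or_pos k with rfl | hk
  · intro G _ _
    exact ⟨fun i h => by omega, fun _ i h => by omega⟩
  obtain ⟨m, rfl⟩ : ∃ m, k = m + 1 := ⟨k - 1, by omega⟩
  have := hπ.prob
  have hQ : Y660.CW.Queue μS κ := by
    refine ⟨fun q g hg => ?_, hκ.nonneg⟩
    rw [← hκ.service q, lintegral_map hg measurable_fst]
  have hS : Y660.CW.Stat κ π := by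
    refine ⟨hπ.prob, hπ.ordered, fun g hg => ?_⟩
    have h1 : ∫⁻ q, g q ∂π = ∫⁻ r, g (Y660.CW.nxt r.1 r.2) ∂(π ⊗ₘ κ) := by
      conv_lhs => rw [← hπ.invariant]
      exact lintegral_map hg Y660.CW.measurable_nxt
    rw [h1]
    exact Measure.lintegral_compProd (hg.comp Y660.CW.measurable_nxt)
  have ha : ∀ᵐ q ∂π, ∀ y : ℝ, Tendsto (fun n => Y660.CW.early κ n (q, y)) atTop (𝓝 0) := by
    filter_upwards [harr] with q hq y
    simpa only [early_eq] using hq y
  intro G hc hm
  exact ⟨fun i h => Y660.CW.conv_ennreal hS hQ ha hc hm i h,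
    fun hint i h => Y660.CW.conv_real hS hQ ha hc hm hint i h⟩

lemma iid (k : ℕ) (ν : Measure (ℝ × ℝ)) [IsProbabilityMeasure ν]
    (hν : ∀ᵐ p ∂ν, 0 ≤ p.1 ∧ 0 ≤ p.2) (h0 : ¬ ∀ᵐ p ∂ν, p.2 = 0) (π : Measure (Fin k → ℝ))
    (hπ : IsStationaryIid ν π) : AllConvex π (fun w => w) := by
  rcases Nat.eq_zero_or_pos k with rfl | hk
  · intro G _ _
    exact ⟨fun i h => by omega, fun _ i h => by omega⟩
  obtain ⟨m, rfl⟩ : ∃ m, k = m + 1 := ⟨k - 1, by omega⟩
  have := hπ.prob
  have hmap : Measurable (fun w : Fin (m + 1) → ℝ => ((w, ()) : Y660.CW.St m Unit)) :=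
    measurable_id.prodMk measurable_const
  set π' : Measure (Y660.CW.St m Unit) := π.map (fun w => (w, ())) with hπ'
  have hlin : ∀ g : Y660.CW.St m Unit → ℝ≥0∞, Measurable g →
      ∫⁻ q, g q ∂π' = ∫⁻ w, g (w, ()) ∂π := fun g hg => lintegral_map hg hmap
  have hae : ∀ P : Y660.CW.St m Unit → Prop, (∀ᵐ w ∂π, P (w, ())) → ∀ᵐ q ∂π', P q := by
    intro P hP
    have hemb := emb m
    exact (hemb.ae_map_iff).2 hP
  have hS : Y660.CW.Stat (Y660.CW.iidK m ν) π' := by
    refine ⟨Measure.isProbabilityMeasure_map hmap.aemeasurable, hae _ hπ.ordered,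
      fun g hg => ?_⟩
    have hg1 : Measurable (fun q : Y660.CW.St m Unit =>
        ∫⁻ p, g (Y660.CW.nxt q p) ∂(Y660.CW.iidK m ν q)) :=
      Measurable.lintegral_kernel_prod_right' (hg.comp Y660.CW.measurable_nxt)
    rw [hlin g hg, hlin _ hg1]
    have hg2 : Measurable (fun w : Fin (m + 1) → ℝ => g (w, ())) := hg.comp hmap
    have hst : ∫⁻ w, g (w, ()) ∂π = ∫⁻ w, ∫⁻ p, g (kwStep w p.1 p.2, ()) ∂ν ∂π := by
      have h1 : ∫⁻ w, g (w, ()) ∂π =
          ∫⁻ r, g (kwStep r.1 r.2.1 r.2.2, ()) ∂(π.prod ν) := by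
        conv_lhs => rw [← hπ.invariant]
        exact lintegral_map hg2 MP_a2bed5_pr.ConvexWorkloads.measurable_kwStep
      rw [h1]
      exact lintegral_prod _ (hg2.comp MP_a2bed5_pr.ConvexWorkloads.measurable_kwStep).aemeasurable
    rw [hst]
    apply lintegral_congr
    intro w
    rw [Y660.CW.lintegral_iidK ν (w, ()) (fun p => g (Y660.CW.nxt (w, ()) p))
      (hg.comp (Y660.CW.measurable_nxt.comp (measurable_const.prodMk measurable_id)))]
    rfl
  have : IsProbabilityMeasure (ν.map Prod.fst) :=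
    Measure.isProbabilityMeasure_map measurable_fst.aemeasurable
  have hQ := Y660.CW.queue_iid (m := m) ν hν
  have ha : ∀ᵐ q ∂π', ∀ y : ℝ,
      Tendsto (fun n => Y660.CW.early (Y660.CW.iidK m ν) n (q, y)) atTop (𝓝 0) :=
    Eventually.of_forall fun q y => Y660.CW.early_iid ν hν h0 q y
  intro G hc hm
  have e1 : ∀ l : Fin (m + 1), ∫⁻ w : Fin (m + 1) → ℝ, ENNReal.ofReal (G (w l) - G 0) ∂π =
      ∫⁻ q : Y660.CW.St m Unit, ENNReal.ofReal (G (q.1 l) - G 0) ∂π' := by
    intro l
    have hemb := emb m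
    rw [hπ', hemb.lintegral_map]
  have e2 : ∀ l : Fin (m + 1), ∫ w : Fin (m + 1) → ℝ, G (w l) ∂π =
      ∫ q : Y660.CW.St m Unit, G (q.1 l) ∂π' := by
    intro l
    have hemb := emb m
    rw [hπ', hemb.integral_map]
  refine ⟨fun i h => ?_, fun hint i h => ?_⟩
  · rw [e1, e1, e1]
    exact Y660.CW.conv_ennreal hS hQ ha hc hm i h
  · rw [e2, e2, e2]
    refine Y660.CW.conv_real hS hQ ha hc hm (fun l => ?_) i h
    have hemb := emb m
    rw [hπ', hemb.integrable_map_iff]
    exact hint l

/-- **(1)** Any number `k` of servers, service times independent of the past with any law, next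
interarrival time (and environment) depending in any way on the workloads, the environment and the
present service time, arrival times tending to infinity: in the stationary regime `E G(W₁), …,
E G(Wₖ)` is convex for every nondecreasing convex `G` on `[0, ∞)`.

**(2)** In particular this holds if the pairs (service time, interarrival time) are i.i.d. with any
joint law on `[0, ∞)²` such that the interarrival time is not almost surely zero.

**(3)** The question: in the GI/GI/k queue (`k ≥ 3`) with finite second moments and `0 < ρ < 1` the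
stationary mean workloads `E W₁, …, E Wₖ` are finite and form a convex sequence. -/
theorem result :
    (∀ (k : ℕ) (E : Type) [MeasurableSpace E] (μS : Measure ℝ) [IsProbabilityMeasure μS]
      (κ : Kernel ((Fin k → ℝ) × E) (ℝ × ℝ × E)) [IsMarkovKernel κ]
      (π : Measure ((Fin k → ℝ) × E)), IsQueue μS κ → IsStationary κ π → ArrivalsDiverge κ π →
        AllConvex π (fun q => q.1)) ∧
    (∀ (k : ℕ) (ν : Measure (ℝ × ℝ)) [IsProbabilityMeasure ν],
      (∀ᵐ p ∂ν, 0 ≤ p.1 ∧ 0 ≤ p.2) → ¬ (∀ᵐ p ∂ν, p.2 = 0) →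
        ∀ π : Measure (Fin k → ℝ), IsStationaryIid ν π → AllConvex π (fun w => w)) ∧
    (∀ (k : ℕ), 3 ≤ k → ∀ (μT μS : Measure ℝ) [IsProbabilityMeasure μT] [IsProbabilityMeasure μS],
      (∀ᵐ t ∂μT, 0 ≤ t) → (∀ᵐ s ∂μS, 0 ≤ s) →
      Integrable (fun t : ℝ => t) μT → Integrable (fun s : ℝ => s) μS →
      Integrable (fun t : ℝ => t ^ 2) μT → Integrable (fun s : ℝ => s ^ 2) μS →
      0 < (∫ s, s ∂μS) / (k * ∫ t, t ∂μT) → (∫ s, s ∂μS) / (k * ∫ t, t ∂μT) < 1 →
      ∀ π : Measure (Fin k → ℝ), IsStationaryIid (μS.prod μT) π →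
        (∀ i : Fin k, Integrable (fun w : Fin k → ℝ => w i) π) ∧
          ∀ (i : ℕ) (h : i + 2 < k),
            2 * ∫ w, w ⟨i + 1, by omega⟩ ∂π ≤
              ∫ w, w ⟨i, by omega⟩ ∂π + ∫ w, w ⟨i + 2, h⟩ ∂π) := by
  refine ⟨fun k E _ μS _ κ _ π hκ hπ ha => general k E μS κ π hκ hπ ha,
    fun k ν _ hν h0 π hπ => iid k ν hν h0 π hπ, ?_⟩
  intro k hk μT μS _ _ hT hS iT iS iT2 iS2 hρ0 hρ1 π hπ
  exact MP_a2bed5_pr.ConvexWorkloads.result k hk μT μS hT hS iT iS iT2 iS2 hρ0 hρ1 π
    ⟨hπ.prob, hπ.ordered, hπ.invariant⟩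

end Pool.Agent.Results.MP_a2bed5_pr.ConvexFunctions
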